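import Pool.Agent.MTF.StmtsB
import Pool.Agent.MTN.Stmts2
import Pool.Agent.MT100GO.Defs
import Pool.Agent.Helper74_MTN.Fin

/-! MTO: few constants at algebraic points, EVEN weight (orthogonal case).  Statements of the modules.
Model: MTF (odd weight).  `Fil`, `F0`, `sk`, `Stab`, `Dep` are those of `MTF/StmtsA.lean`. -/

set_option autoImplicit false

namespace Pool.Agent.MTO

open Matrix Polynomial NumberField Pool.Agent.MT100 Pool.Agent.MT100G Pool.Agent.MT100A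
  Pool.Agent.MT100D Pool.Agent.Helper78_MT Pool.Agent.Helper46_MT Pool.Agent.MTF Pool.Agent.MTL
  Pool.Agent.MTN Pool.Agent.MTN.H53 Pool.Agent.HIK Pool.Agent.MT100GO

universe u v

variable {d : Type} [Fintype d] [DecidableEq d]

/-- the infinitesimal rotation `a ∧ b` for the symmetric form `Ψ` -/
def wd (Ψ : Matrix d d ℂ) (a b : d → ℂ) : Matrix d d ℂ :=
  vecMulVec a (Ψ *ᵥ b) - vecMulVec b (Ψ *ᵥ a)

/-- `m` is a Lie algebra of infinitesimal isometries of the form `Ψ`, stable under complex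
conjugation, which contains the grading element of the Hodge structure `V` of even weight `w`,
polarised by `Ψ`. -/
structure HE (w : ℕ) (Ψ : Matrix d d ℂ) (V : ℕ → Submodule ℂ (d → ℂ))
    (m : Submodule ℂ (Matrix d d ℂ)) : Prop where
  even : Even w
  top : ∀ p, w < p → V p = ⊥
  indep : iSupIndep V
  span : ⨆ p, V p = ⊤
  conj : ∀ p ≤ w, ∀ x ∈ V p, star x ∈ V (w - p)
  symm : Ψᵀ = Ψ
  real : ∀ i j, star (Ψ i j) = Ψ i j
  orth : ∀ p q, p + q ≠ w → ∀ x ∈ V p, ∀ y ∈ V q, x ⬝ᵥ (Ψ *ᵥ y) = 0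
  pos : ∀ p ≤ w, ∀ x ∈ V p, x ≠ 0 → ∃ t : ℝ, 0 < t ∧
    Complex.I ^ p * (-Complex.I) ^ (w - p) * (x ⬝ᵥ (Ψ *ᵥ star x)) = t
  br : ∀ X ∈ m, ∀ Y ∈ m, X * Y - Y * X ∈ m
  cj : ∀ X ∈ m, X.map star ∈ m
  le : m ≤ sk Ψ
  hh : ∃ H ∈ m, ∀ p, ∀ x ∈ V p, H *ᵥ x = ((p : ℂ) - w / 2) • x

/-- WED: calculus of `wd`.  (4): with `Ψ⁻¹ = ∑ e_i f_iᵀ`, `X ∈ sk Ψ` means that `X Ψ⁻¹` is skew, so it is a
combination of the `e_i e_jᵀ - e_j e_iᵀ`, and `(a bᵀ - b aᵀ) Ψ = wd a b`. -/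
def WedStmt : Prop :=
  ∀ (d : Type) [Fintype d] [DecidableEq d] (Ψ : Matrix d d ℂ), Ψᵀ = Ψ →
    (∀ a b x : d → ℂ, wd Ψ a b *ᵥ x = (b ⬝ᵥ (Ψ *ᵥ x)) • a - (a ⬝ᵥ (Ψ *ᵥ x)) • b) ∧
    (∀ a b : d → ℂ, wd Ψ a b ∈ sk Ψ) ∧
    (∀ (X : Matrix d d ℂ), X ∈ sk Ψ → ∀ a b : d → ℂ,
      X * wd Ψ a b - wd Ψ a b * X = wd Ψ (X *ᵥ a) b + wd Ψ a (X *ᵥ b)) ∧
    (IsUnit Ψ.det → sk Ψ ≤ Submodule.span ℂ {X | ∃ a b : d → ℂ, X = wd Ψ a b}) ∧
    (∀ a b : d → ℂ, wd Ψ b a = -wd Ψ a b) ∧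
    (∀ a a' b : d → ℂ, wd Ψ (a + a') b = wd Ψ a b + wd Ψ a' b) ∧
    (∀ (t : ℂ) (a b : d → ℂ), wd Ψ (t • a) b = t • wd Ψ a b) ∧
    ((∀ i j, star (Ψ i j) = Ψ i j) →
      ∀ a b : d → ℂ, (wd Ψ a b).map star = wd Ψ (star a) (star b)) ∧
    ∀ x y : d → ℂ, x ⬝ᵥ (Ψ *ᵥ y) = y ⬝ᵥ (Ψ *ᵥ x)

/-- EXT: an irreducible Lie algebra of infinitesimal rotations which contains the rotations of a
nondegenerate space `W` of dimension three (`w i` orthogonal, not isotropic).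

Proof.  `C` = orthogonal complement of `W = ⟨w 0, w 1, w 2⟩`.  Every `X ∈ g` is
`X = X0 + ∑ i, wd (w i) (c i) + X'` with `X0` in the span of the `wd (w i) (w j)`, `c i ∈ C`, `X'` a
combination of `wd c c'`, `c, c' ∈ C`.  `X0 ∈ g`.  With `e = wd (w 0) (w 1)`, `ad(e)²` maps `X - X0` to
`- q0 q1 (wd (w 0) (c 0) + wd (w 1) (c 1))`, `q i = w i · w i ≠ 0`; the same for the other two pairs, so each
`wd (w i) (c i) ∈ g`, and with the `wd (w i) (w j)` each `wd (w j) (c i) ∈ g`; then `X' ∈ g`.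
`C1 := {c ∈ C | ∀ j, wd (w j) c ∈ g}` is stable under `X'`, and `W + C1` is stable under `g`; it is not zero,
so it is everything and `C1 = C`.  Finally `[wd (w 0) c, wd (w 0) c'] = - q0 • wd c c'`, so `g` contains all
`wd a b`, which span `sk Ψ` (WED). -/
def ExtStmt : Prop :=
  ∀ (d : Type) [Fintype d] [DecidableEq d] (Ψ : Matrix d d ℂ), Ψᵀ = Ψ → IsUnit Ψ.det →
    ∀ g : Submodule ℂ (Matrix d d ℂ), (∀ X ∈ g, ∀ Y ∈ g, X * Y - Y * X ∈ g) → g ≤ sk Ψ →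
    (∀ U, MTF.Stab g U → U = ⊥ ∨ U = ⊤) → ∀ w : Fin 3 → d → ℂ,
    (∀ i j, i ≠ j → w i ⬝ᵥ (Ψ *ᵥ w j) = 0) → (∀ i, w i ⬝ᵥ (Ψ *ᵥ w i) ≠ 0) →
    (∀ i j, wd Ψ (w i) (w j) ∈ g) → sk Ψ ≤ g

/-- IRE: three orthogonal vectors as in EXT (irreducibility is not used).

Proof.  `p0` = the smallest `p` with `V p ≠ ⊥`; `2 p0 < w`, as otherwise `V (w/2) = ⊤`, of dimension
`≤ κ`.  The middle `M = ⨆ (p0 < q < w - p0), V q` has dimension `card d - finrank (V p0 ⊔ V (w - p0)) > 2 m`.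
Fix `0 ≠ u ∈ V p0`.  For `v ∈ V q`, `p0 < q < w - p0`, `wd u v` has degree `p0 + q - w < 0` for `ad H`, so
(`g` and `F0` are graded, `F0` in degrees `≥ 0`) it is in `g ⊔ F0` only if it is in `g`.  With
`A q = {v ∈ V q | wd u v ∈ g}`, of codimension `c q` in `V q`, `Dep` gives `∑ c q ≤ m` (sum over the middle).
If `A q ∩ star (A (w - q)) = 0` for all `q` in the middle then `dim V q ≤ c q + c (w - q)` and
`dim M ≤ 2 m`, a contradiction.  So there are `q` and `0 ≠ v ∈ V q` with `wd u v ∈ g`, `wd u (star v) ∈ g`; by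
`cj` also `wd ū v̄, wd ū v ∈ g` (`ū = star u`).  `u·u = ū·ū = u·v = u·v̄ = ū·v = ū·v̄ = 0` (degrees), so
`[wd u v, wd ū v̄] = - (u·ū) wd v v̄ + (v·v̄) wd ū u` and `[wd u v̄, wd ū v] = - (u·ū) wd v̄ v + (v·v̄) wd ū u`;
the sum is `2 (v·v̄) wd ū u`, and `v·v̄ ≠ 0` by `pos`.  So `wd u ū ∈ g`.  Take `w 0 = u + ū`,
`w 1 = i (u - ū)` (`w 0·w 0 = w 1·w 1 = 2 u·ū ≠ 0`, `w 0·w 1 = 0`), and `w 2 = v + v̄` or `i (v - v̄)`: the sum
of the two squares is `4 v·v̄ ≠ 0`. -/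
def IreStmt : Prop :=
  ∀ (d : Type) [Fintype d] [DecidableEq d] (w : ℕ) (Ψ : Matrix d d ℂ)
    (V : ℕ → Submodule ℂ (d → ℂ)) (g : Submodule ℂ (Matrix d d ℂ)), HE w Ψ V g →
    ∀ κ m : ℕ, (∀ p ≤ w, Module.finrank ℂ ↥(V p ⊔ V (w - p)) ≤ κ) → 2 * m + κ < Fintype.card d →
    Dep Ψ V g m → ∃ x : Fin 3 → d → ℂ, (∀ i j, i ≠ j → x i ⬝ᵥ (Ψ *ᵥ x j) = 0) ∧
      (∀ i, x i ⬝ᵥ (Ψ *ᵥ x i) ≠ 0) ∧ ∀ i j, wd Ψ (x i) (x j) ∈ g

/-- NUE: the numerical inequality of SPE.  (If `x p, y p ≥ 1` for one `p` compare with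
`∑ p' ≠ p, (x p y p' + x p' y p)`; otherwise `∑ x p * y p = 0`, and `κ ≥ 1`.) -/
def NueStmt : Prop :=
  ∀ (P : Type) [Fintype P] (x y : P → ℕ) (κ : ℕ), (∀ p, x p + y p ≤ κ) →
    1 ≤ ∑ p, x p → 1 ≤ ∑ p, y p →
    ∑ p, x p + ∑ p, y p + ∑ p, x p * y p ≤ (∑ p, x p) * ∑ p, y p + κ

/-- SPE: the case of an orthogonal decomposition (model: SPL, `Helper3_MTF/Spl.lean`).

`U`, `U'` are graded, of dimensions `u p`, `u' p`; `u p = u (w - p)`, `u' p = u' (w - p)` by duality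
(they are orthogonal to each other and `Ψ` is nondegenerate).  The `wd a b`, `a` in a basis of `U ∩ V p`, `b`
in a basis of `U' ∩ V q`, `p + q < w`, are independent modulo `g ⊔ F0` (`g` preserves `U` and `U'`), so their
number `N = ∑ (p + q < w), u p * u' q` is at most `m`.  By the symmetry `(p, q) ↦ (w - p, w - q)`
`2 N = (∑ u p) (∑ u' p) - ∑ u p * u' p` (`∑ u p u' (w - p) = ∑ u p u' p`).  NUE gives
`card d = ∑ u p + ∑ u' p ≤ 2 N + κ`. -/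
def SpeStmt : Prop :=
  ∀ (d : Type) [Fintype d] [DecidableEq d] (w : ℕ) (Ψ : Matrix d d ℂ)
    (V : ℕ → Submodule ℂ (d → ℂ)) (g : Submodule ℂ (Matrix d d ℂ)), HE w Ψ V g →
    ∀ κ m : ℕ, (∀ p, Module.finrank ℂ (V p) ≤ κ) → Dep Ψ V g m →
    ∀ U U' : Submodule ℂ (d → ℂ), MTF.Stab g U → MTF.Stab g U' → U ≠ ⊥ → U' ≠ ⊥ → IsCompl U U' →
    (∀ x ∈ U, ∀ y ∈ U', x ⬝ᵥ (Ψ *ᵥ y) = 0) → Fintype.card d ≤ 2 * m + κ

/-- NLE: the numerical inequality of LAE; `x 0` is the dimension of the middle part of `U`, `(y i, z i)`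
the dimensions of the parts of degree `p_i` and `w - p_i` of `U`, `p_i < w / 2`.

Proof.  `c = x`, `r = ∑ (y i + z i)`, `S = ∑ 2 y i z i ≤ r² / 2`; the claim is
`2 c + 3 r ≤ 2 c r + r² - S + κ`.  `r = 0`: `2 c ≤ κ`.  `r ≥ 1`, `c ≥ 1`: `κ ≥ 2 c` and
`3 r ≤ 2 c r + r² - S` unless `c = r = 1`, where `S = 0`.  `c = 0`: `s` = the maximum of the `y i + z i`, then
`κ ≥ 2 s` and `S ≤ s r / 2`: `3 r ≤ r² - s r / 2 + 2 s` if `r ≥ 3`; `r = 1`: `S = 0`, `κ ≥ 2`; `r = 2`: either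
`s = 2`, `S ≤ 2`, `κ ≥ 4` or `s = 1`, `S = 0`, `κ ≥ 2`. -/
def NleStmt : Prop :=
  ∀ (P : Type) [Fintype P] (c : ℕ) (y z : P → ℕ) (κ : ℕ), 2 * c ≤ κ →
    (∀ p, 2 * (y p + z p) ≤ κ) →
    2 * c + 3 * (∑ p, (y p + z p)) + 2 * (∑ p, y p * z p) ≤
      2 * c * (∑ p, (y p + z p)) + (∑ p, (y p + z p)) ^ 2 + κ

/-- LAE: the case of two Lagrangian subspaces (model: LAG, `Helper90_MTF/Lag*.lean`, with exterior in
place of symmetric squares).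

`U`, `U'` are graded, of dimensions `u p`, `u' p`, and `u' p = u (w - p)` by duality.  The `wd a b` with `a, b`
(`a` before `b`) in a graded basis of `U`, of degrees with `p + q < w`, and those with `a, b` in a graded
basis of `U'` are independent modulo `g ⊔ F0` (`g` preserves `U` and `U'`, `wd a b` maps `U'` to `U` and `U`
to `0`), so their number `N` is at most `m`.  The second number is the number of the pairs in a basis of `U`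
with `p + q > w`, so with `a = ∑ u p` (`card d = 2 a`), `c = u (w/2)`,
`2 N = a (a - 1) - c (c - 1) - 2 ∑ (p < w/2), u p * u (w - p)`.  NLE (with `y p = u p`, `z p = u (w - p)` for
`p < w / 2`; `finrank (V p ⊔ V (w - p)) = 2 (u p + u (w - p))` for `p ≠ w / 2` and `finrank (V (w/2)) = 2 c`)
gives `2 a ≤ 2 N + κ`. -/
def LaeStmt : Prop :=
  ∀ (d : Type) [Fintype d] [DecidableEq d] (w : ℕ) (Ψ : Matrix d d ℂ)
    (V : ℕ → Submodule ℂ (d → ℂ)) (g : Submodule ℂ (Matrix d d ℂ)), HE w Ψ V g →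
    ∀ κ m : ℕ, (∀ p ≤ w, Module.finrank ℂ ↥(V p ⊔ V (w - p)) ≤ κ) → Dep Ψ V g m →
    ∀ U U' : Submodule ℂ (d → ℂ), MTF.Stab g U → MTF.Stab g U' → U ≠ ⊥ → IsCompl U U' →
    (∀ x ∈ U, ∀ y ∈ U, x ⬝ᵥ (Ψ *ᵥ y) = 0) → (∀ x ∈ U', ∀ y ∈ U', x ⬝ᵥ (Ψ *ᵥ y) = 0) →
    Fintype.card d ≤ 2 * m + κ

/-- CRE: trichotomy (model: CRD, `Helper74_MTF/Crd.lean`) -/
def CreStmt : Prop :=
  ∀ (d : Type) [Fintype d] [DecidableEq d] (w : ℕ) (Ψ : Matrix d d ℂ)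
    (V : ℕ → Submodule ℂ (d → ℂ)) (g : Submodule ℂ (Matrix d d ℂ)), HE w Ψ V g →
    (∀ U, MTF.Stab g U → U = ⊥ ∨ U = ⊤) ∨
    (∃ U U', MTF.Stab g U ∧ MTF.Stab g U' ∧ U ≠ ⊥ ∧ U' ≠ ⊥ ∧ IsCompl U U' ∧
      ∀ x ∈ U, ∀ y ∈ U', x ⬝ᵥ (Ψ *ᵥ y) = 0) ∨
    (∃ U U', MTF.Stab g U ∧ MTF.Stab g U' ∧ U ≠ ⊥ ∧ IsCompl U U' ∧
      (∀ x ∈ U, ∀ y ∈ U, x ⬝ᵥ (Ψ *ᵥ y) = 0) ∧ ∀ x ∈ U', ∀ y ∈ U', x ⬝ᵥ (Ψ *ᵥ y) = 0)

/-- CDE: the codimension bound (model: CDL, `Helper32_MTF/Cdl.lean`; `Ψ` is nondegenerate by `pos`) -/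
def CdeStmt : Prop :=
  ∀ (d : Type) [Fintype d] [DecidableEq d] (w : ℕ) (Ψ : Matrix d d ℂ)
    (V : ℕ → Submodule ℂ (d → ℂ)) (g : Submodule ℂ (Matrix d d ℂ)), HE w Ψ V g →
    ∀ κ m : ℕ, (∀ p ≤ w, Module.finrank ℂ ↥(V p ⊔ V (w - p)) ≤ κ) → 2 * m + κ < Fintype.card d →
    Dep Ψ V g m → sk Ψ ≤ g

/-- SNE: it suffices to test nilpotent infinitesimal isometries (model: SPN, `Helper90_MTF`; in dimension
at least three the nilpotent elements `wd a b`, `a` isotropic and orthogonal to `b`, span `sk Ψ`: choose an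
orthonormal basis `f`; `wd (f i + i f j) (f k)` are nilpotent for `i, j, k` different, and so are the
`wd (f i - i f j) (f k)`, the sum is `2 wd (f i) (f k)`) -/
def SneStmt : Prop :=
  ∀ (d : Type) [Fintype d] [DecidableEq d] (Ψ : Matrix d d ℂ), Ψᵀ = Ψ → IsUnit Ψ.det →
    3 ≤ Fintype.card d → ∀ (W : Submodule ℂ (Matrix d d ℂ)) (m : ℕ),
    (∀ X : Fin (m + 1) → Matrix d d ℂ, (∀ j, X j ∈ sk Ψ ∧ IsNilpotent (X j)) →
      ∃ l : Fin (m + 1) → ℂ, l ≠ 0 ∧ ∑ j, l j • X j ∈ W) →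
    ∀ X : Fin (m + 1) → Matrix d d ℂ, (∀ j, X j ∈ sk Ψ) →
      ∃ l : Fin (m + 1) → ℂ, l ≠ 0 ∧ ∑ j, l j • X j ∈ W

/-- HLE: the Lie algebra of a group containing the Deligne torus satisfies `HE` (even weight; model: HLS,
`Helper20_MTF/Hls.lean`) -/
def HleStmt : Prop :=
  ∀ (d : Type) [Fintype d] [DecidableEq d] (w : ℕ) (E : Matrix d d ℚ)
    (V : ℕ → Submodule ℂ (d → ℂ)), Even w → 1 ≤ w → PolHodge w E V →
    ∀ I : Set (MvPolynomial (d × d) ℚ), IsAlgSubgroup I → hodgeTorus w V ⊆ zeros I ℂ →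
    HE w (E.map (algebraMap ℚ ℂ)) V (Ul I E)

/-- the Zariski closure of the monodromy group contains the special orthogonal group of `E` -/
def SoDense {d : Type} [Fintype d] [DecidableEq d] (M : Set (Matrix d d ℂ)) (E : Matrix d d ℚ) :
    Prop :=
  ∀ g : Matrix d d ℂ, gᵀ * E.map (algebraMap ℚ ℂ) * g = E.map (algebraMap ℚ ℂ) → g.det = 1 →
    g ∈ zclosure ℂ ℂ M

/-- LVE: the Hodge numbers are the numbers of forms of given level (from `MTN.H74.lvd` and `indep`) -/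
def LveStmt : Prop :=
  ∀ (d : Type) [Fintype d] [DecidableEq d] (F : Family d) (lev : d → ℕ)
    (P : Matrix d d ℂ), IsUnit P.det → ∃ R0 : ℝ, ∀ x : ℂ, R0 ≤ ‖x‖ →
    ∀ (w : ℕ) (E : Matrix d d ℚ) (V : ℕ → Submodule ℂ (d → ℂ)), PolHodge w E V →
    F.HasFil lev P x V → ∀ p ≤ w,
      Module.finrank ℂ ↥(V p ⊔ V (w - p)) = Fintype.card {a // lev a = p ∨ lev a = w - p}

/-- GSO: if all the groups contain the orthogonal Lie algebra, the Mumford-Tate group is the connected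
group of the similitudes (see the end of the proof of `Helper46_MTGO/Hdf.lean`: `simO_mem`, `so_mem`,
`mt_subO`, `transfer_gen`) -/
def GsoStmt : Prop :=
  ∀ (d : Type) [Fintype d] [DecidableEq d] (w : ℕ) (E : Matrix d d ℚ)
    (V : ℕ → Submodule ℂ (d → ℂ)), Even w → 1 ≤ w → 1 ≤ Fintype.card d → PolHodge w E V →
    (∀ I : Set (MvPolynomial (d × d) ℚ), IsAlgSubgroup I → hodgeTorus w V ⊆ zeros I ℂ →
      ∀ X : Matrix d d ℂ, Xᵀ * E.map (algebraMap ℚ ℂ) + E.map (algebraMap ℚ ℂ) * X = 0 →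
        X ∈ Ul I E) →
    ∀ (K : Type u) [Field K] [CharZero K], mtGroup w V K = simO E K

/-- MAE: the Hodge side at algebraic points (model: `maf` in `Helper74_MTN/Fin.lean`; for `w = 0` there is
no such `V`, by LVE and the bound `κ`) -/
def MaeStmt : Prop :=
  ∀ (d : Type) [Fintype d] [DecidableEq d] (F : Family d) (w : ℕ) (lev : d → ℕ), Even w →
    ∀ P : Matrix d d ℂ, IsUnit P.det → ∀ (δ : ℕ) (c : Fin δ → ℂ),
    (∀ i j, IsAlgebraic (IntermediateField.adjoin ℚ (Set.range c)) (P i j)) →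
    ∀ κ : ℕ, (∀ p ≤ w, Fintype.card {a // lev a = p ∨ lev a = w - p} ≤ κ) →
    3 ≤ Fintype.card d → 2 * (δ + (if F.N = 0 then 0 else 1)) + κ < Fintype.card d → ∀ m A : ℕ,
    ∃ R0 : ℝ, ∀ x ∈ MTN.H74.Pts m A, R0 ≤ ‖x‖ → ∀ (E : Matrix d d ℚ)
      (V : ℕ → Submodule ℂ (d → ℂ)), PolHodge w E V → F.HasFil lev P x V → SoDense (F.Mo P) E →
      ∀ (K : Type u) [Field K] [CharZero K], mtGroup w V K = simO E K

/-- FEW, even weight: the final theorem (model: `Helper74_MTN/Few.lean`; the `ℓ`-adic side by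
`Pool.Agent.MT100GO.lad_all`) -/
def FewEStmt : Prop :=
  ∀ (d : Type) [Fintype d] [DecidableEq d] (F : Family d) (w : ℕ) (lev : d → ℕ)
    (P : Matrix d d ℂ) (m κ : ℕ) (c : Fin m → ℂ) (s : ℂ), Even w → IsUnit P.det → s ≠ 0 →
    (∀ i j, IsAlgebraic (IntermediateField.adjoin ℚ (Set.range c)) (s * P i j)) →
    (∀ p ≤ w, Fintype.card {a // lev a = p ∨ lev a = w - p} ≤ κ) → 5 ≤ Fintype.card d →
    2 * (m + (if F.N = 0 then 0 else 1)) + κ < Fintype.card d →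
    (∀ e A : ℕ, ∃ R0 : ℝ, ∀ x ∈ Pool.Agent.MTN.Pts e A, R0 ≤ ‖x‖ →
      ∀ (E : Matrix d d ℚ) (V : ℕ → Submodule ℂ (d → ℂ)),
      FibreC F lev P w x E V → SoDense (F.Mo P) E →
      (∀ (K : Type u) [Field K] [CharZero K], mtGroup w V K = simO E K) ∧
      ∀ (ℓ : ℕ) [Fact ℓ.Prime] (Γ : Type v) [Group Γ] (ρ : Γ →* GL d ℚ_[ℓ]), BigMonodromy E ρ →
        ∀ (K : Type u) [Field K] [CharZero K] [Algebra ℚ_[ℓ] K],
          monodromy ρ K = mtGroup w V K) ∧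
    ∀ ρ : (ℓ : ℕ) → [Fact ℓ.Prime] → GT →* GL d ℚ_[ℓ],
      (∀ (ℓ : ℕ) [Fact ℓ.Prime], Continuous (ρ ℓ)) →
      ∀ (k : Type) [Field k] [NumberField k] (σ : k →+* ℂ),
      ∃ (T : Set (𝓞 k)) (N : ℕ → ℕ), DZ k T ∧ ∀ (ℓ : ℕ) [Fact ℓ.Prime] (a : 𝓞 k),
        a ∉ T → (N ℓ : ℝ) ≤ house (a : k) →
        ∀ (E : Matrix d d ℚ) (V : ℕ → Submodule ℂ (d → ℂ)),
        FibreC F lev P w (σ a) E V → SoDense (F.Mo P) E → BigMonodromy E (ρ ℓ) →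
        ∀ (ψ : k →+* QB) (ρa : HIK.Stab (ψ a) →* GL d ℚ_[ℓ]), SpecializesAt (ρ ℓ) (ψ a) ρa →
        ∀ (K : Type u) [Field K] [CharZero K] [Algebra ℚ_[ℓ] K],
          monodromy ρa K = mtGroup w V K

end Pool.Agent.MTO
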